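import Pool.Agent.T9h90.JMMain

/-!
# Completions need not be smallest `(J, M, m)`-extensions

`Pool/Agent/T9h90/JMDefs.lean` holds the definitions of the problem file: Boolean `m`-algebras
(`IsMAlgebra`), `m`-homomorphisms (`IsMHom`), `m`-generation (`MGenerates`), the data `(J, M)`
(`Admissible`), `(J, M, m)`-extensions (`IsExtension`), the quasi-order (`Below`), smallest
elements (`IsSmallest`) and `m`-completions (`IsCompletion`).

The theorem: for every infinite cardinal `m` there is a Boolean algebra `A`, which has an
`m`-completion, such that for every `m`-completion `E` of `A` and for ALL classes `J` and `M` (so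
even if `J` and `M` consist of all the subsets of size at most `m` whose join, respectively meet,
exists) `E` is not a smallest element of the class of the `(J, M, m)`-extensions of `A`: some
`(J, M, m)`-extension `E'` has no `m`-homomorphism onto `E` over `A`.
-/

namespace Pool.Agent.Results.MP_69a01b_lc.NoSmallest

open Cardinal Pool.Agent.T9h90.JM

universe u

theorem result (m : Cardinal.{u}) (hm : ℵ₀ ≤ m) :
    ∃ (A : Type u) (_ : BooleanAlgebra A), (∃ E : Ext A, IsCompletion m E) ∧
      ∀ J M : Set (Set A), Admissible m J M →
        ∃ E' : Ext A, IsExtension m J M E' ∧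
          ∀ E : Ext A, IsCompletion m E → ¬ Below m E E' ∧ ¬ IsSmallest m J M E := by
  obtain ⟨L, rfl⟩ : ∃ L : Type u, #L = m := ⟨m.out, mk_out m⟩
  have hL : #L < 2 ^ #L := cantor _
  refine ⟨Alg L, inferInstance, ⟨_, isCompletion _ (hm.trans_lt hL)⟩, fun J M hJM => ?_⟩
  refine ⟨_, isExtension hm hL J M hJM, fun E hE => ⟨no_hom hm hL E hE, fun hs => ?_⟩⟩
  exact no_hom hm hL E hE (hs.2 _ (isExtension hm hL J M hJM))

end Pool.Agent.Results.MP_69a01b_lc.NoSmallest
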